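import Mathlib
import Pool.Agent.R1.Mag

/-!
# The magneto-spectral height of a suspension: a connected counterexample

Let `G` be the complete graph `K_6` with one pendant vertex `x` attached at a vertex `y`. With the
potential `σ = -1` the energy form is `∑ |f u + f v|² ≥ |f x + f y|² + 4 ∑_{K_6} |f|²`, which is at
least `7/10 ∑ |f|²`; so `ν(G) ≥ 7/10`. In the suspension the vertex `x` has degree two. For every
potential the function that is `1` at `x`, and `1/6` in absolute value at `y` and at the new vertex
with phases aligned to `x`, has Rayleigh quotient at most `32/19`; so `ν(G̃) ≤ 32/19 < 17/10`.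
-/

set_option autoImplicit false

open Matrix Finset

namespace Pool.Agent.Results.MP_efe8c5_co.PendantVertex

open Pool.Agent.R1.Mag

/-- The suspension of `G`: one new vertex `none`, adjacent to every vertex of `G`. -/
def suspension {V : Type*} (G : SimpleGraph V) : SimpleGraph (Option V) where
  Adj x y := match x, y with
    | none, none => False
    | none, some _ => True
    | some _, none => True
    | some u, some v => G.Adj u v
  symm := ⟨by
    rintro (_ | u) (_ | v) h
    · exact h
    · trivial
    · trivial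
    · exact G.adj_symm h⟩
  loopless := ⟨by
    rintro (_ | u) h
    · exact h
    · exact h.ne rfl⟩

/-- `K_6` on `0, …, 5` with the pendant vertex `6` attached at `0` -/
def G7 : SimpleGraph (Fin 7) where
  Adj x y := x ≠ y ∧ ((x.val < 6 ∧ y.val < 6) ∨ x.val + y.val = 6)
  symm := ⟨fun x y h => ⟨h.1.symm, by omega⟩⟩
  loopless := ⟨fun x h => h.1 rfl⟩

instance : DecidableRel G7.Adj := fun x y =>
  inferInstanceAs (Decidable (x ≠ y ∧ ((x.val < 6 ∧ y.val < 6) ∨ x.val + y.val = 6)))

lemma real_form (a : Fin 7 → ℝ) :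
    7 / 10 * ∑ x, a x ^ 2 ≤ (∑ x, ∑ y, if G7.Adj x y then (a x + a y) ^ 2 else 0) / 2 := by
  have h : ∀ x y, G7.Adj x y ↔ (x ≠ y ∧ ((x.val < 6 ∧ y.val < 6) ∨ x.val + y.val = 6)) :=
    fun _ _ => Iff.rfl
  simp only [Fin.sum_univ_succ, Fin.sum_univ_zero, h]
  simp [Fin.ext_iff]
  nlinarith [sq_nonneg (a 0 + a 1 + a 2 + a 3 + a 4 + a 5), sq_nonneg (a 0 + 3 / 10 * a 6),
    sq_nonneg (a 0), sq_nonneg (a 1), sq_nonneg (a 2), sq_nonneg (a 3), sq_nonneg (a 4),
    sq_nonneg (a 5), sq_nonneg (a 6)]

lemma Q_eq {V : Type*} [Fintype V] (G : SimpleGraph V) [DecidableRel G.Adj] (σ : V → V → ℂ)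
    (f : V → ℂ) :
    Q G σ f = (∑ x, ∑ y, if G.Adj x y then ‖f x - σ x y * f y‖ ^ 2 else 0) / 2 := by
  unfold Q
  congr 1
  refine Finset.sum_congr rfl fun x _ => Finset.sum_congr rfl fun y _ => ?_
  by_cases h : G.Adj x y
  · rw [if_pos h, if_pos h]
  · rw [if_neg h, if_neg h]

lemma nu_G7 : 7 / 10 ≤ nu G7 := by
  refine le_nu G7 (fun _ _ => -1) ?_ _ ?_
  · intro x y _
    norm_num
  · intro f
    have h1 := real_form (fun x => (f x).re)
    have h2 := real_form (fun x => (f x).im)
    have h3 : ∀ x, ‖f x‖ ^ 2 = (f x).re ^ 2 + (f x).im ^ 2 := by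
      intro x
      rw [← Complex.normSq_eq_norm_sq, Complex.normSq_apply]
      ring
    have h4 : Q G7 (fun _ _ => -1) f =
        (∑ x, ∑ y, if G7.Adj x y then ((f x).re + (f y).re) ^ 2 else 0) / 2 +
        (∑ x, ∑ y, if G7.Adj x y then ((f x).im + (f y).im) ^ 2 else 0) / 2 := by
      rw [Q_eq, ← add_div, ← Finset.sum_add_distrib]
      congr 1
      refine Finset.sum_congr rfl fun x _ => ?_
      rw [← Finset.sum_add_distrib]
      refine Finset.sum_congr rfl fun y _ => ?_
      split_ifs
      · rw [← Complex.normSq_eq_norm_sq, Complex.normSq_apply]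
        simp
        ring
      · simp
    rw [h4]
    simp only [h3, Finset.sum_add_distrib]
    linarith

lemma nu_susp : nu (suspension G7) ≤ 32 / 19 := by
  classical
  refine nu_le _ _ fun σ hσ => ?_
  have h0 : (suspension G7).Adj (some 0) (some 6) := by
    change G7.Adj 0 6
    decide
  have hn : ∀ i : Fin 7, (suspension G7).Adj none (some i) := fun i => trivial
  have hn' : ∀ i : Fin 7, (suspension G7).Adj (some i) none := fun i => trivial
  obtain ⟨A, hA⟩ : ∃ A : ℂ, A = 1 / 6 * σ none (some 6) := ⟨_, rfl⟩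
  obtain ⟨B, hB⟩ : ∃ B : ℂ, B = 1 / 6 * σ (some 0) (some 6) := ⟨_, rfl⟩
  have nA : ‖A‖ = 1 / 6 := by
    rw [hA, norm_mul, (hσ _ _ (hn 6)).1]
    norm_num
  have nB : ‖B‖ = 1 / 6 := by
    rw [hB, norm_mul, (hσ _ _ h0).1]
    norm_num
  let f : Option (Fin 7) → ℂ := fun v => match v with
    | none => A
    | some i => if i = 6 then 1 else if i = 0 then B else 0
  have fn : f none = A := rfl
  have f6 : f (some 6) = 1 := rfl
  have f0 : f (some 0) = B := rfl
  have fi : ∀ i : Fin 7, i ≠ 6 → i ≠ 0 → f (some i) = 0 := fun i h1 h2 => by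
    simp only [f]
    rw [if_neg h1, if_neg h2]
  have hsum : ∑ x, ‖f x‖ ^ 2 = 38 / 36 := by
    rw [Fintype.sum_option]
    simp only [Fin.sum_univ_succ, Fin.sum_univ_zero]
    simp only [Fin.succ_zero_eq_one, Fin.succ_one_eq_two, add_zero]
    change ‖f none‖ ^ 2 + (‖f (some 0)‖ ^ 2 + (‖f (some 1)‖ ^ 2 + (‖f (some 2)‖ ^ 2 +
      (‖f (some 3)‖ ^ 2 + (‖f (some 4)‖ ^ 2 + (‖f (some 5)‖ ^ 2 + ‖f (some 6)‖ ^ 2)))))) = _
    rw [fi 1 (by decide) (by decide), fi 2 (by decide) (by decide), fi 3 (by decide) (by decide),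
      fi 4 (by decide) (by decide), fi 5 (by decide) (by decide), fn, f0, f6, nA, nB]
    norm_num
  refine ⟨f, ?_, ?_⟩
  · intro h
    have := congrFun h (some 6)
    rw [f6] at this
    exact one_ne_zero this
  · -- the energy of every edge
    have key : ∀ x y, (suspension G7).Adj x y → ‖f x - σ x y * f y‖ = ‖f y - σ y x * f x‖ := by
      intro x y hxy
      have h1 := hσ x y hxy
      have h2 : σ x y ≠ 0 := by
        intro h
        rw [h, norm_zero] at h1
        exact zero_ne_one h1.1
      have h3 : f y - σ y x * f x = -(σ x y)⁻¹ * (f x - σ x y * f y) := by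
        rw [h1.2]
        field_simp
        ring
      rw [h3, norm_mul, norm_neg, norm_inv, h1.1]
      simp
    have e1 : ‖f none - σ none (some 6) * f (some 6)‖ ^ 2 = 25 / 36 := by
      rw [fn, f6, hA]
      have : 1 / 6 * σ none (some 6) - σ none (some 6) * 1 = -(5 / 6) * σ none (some 6) := by ring
      rw [this, norm_mul, (hσ _ _ (hn 6)).1]
      norm_num
    have e2 : ‖f (some 0) - σ (some 0) (some 6) * f (some 6)‖ ^ 2 = 25 / 36 := by
      rw [f0, f6, hB]
      have : 1 / 6 * σ (some 0) (some 6) - σ (some 0) (some 6) * 1 =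
        -(5 / 6) * σ (some 0) (some 6) := by ring
      rw [this, norm_mul, (hσ _ _ h0).1]
      norm_num
    have e3 : ‖f none - σ none (some 0) * f (some 0)‖ ^ 2 ≤ 4 / 36 := by
      have : ‖f none - σ none (some 0) * f (some 0)‖ ≤ 1 / 3 := by
        refine (norm_sub_le _ _).trans ?_
        rw [norm_mul, (hσ _ _ (hn 0)).1, fn, f0, nA, nB]
        norm_num
      nlinarith [norm_nonneg (f none - σ none (some 0) * f (some 0))]
    have e4 : ∀ x, (suspension G7).Adj none x → f x = 0 → ‖f none - σ none x * f x‖ ^ 2 = 1 / 36 := by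
      intro x _ hx
      rw [hx, mul_zero, sub_zero, fn, nA]
      norm_num
    have e5 : ∀ x, (suspension G7).Adj (some 0) x → f x = 0 →
        ‖f (some 0) - σ (some 0) x * f x‖ ^ 2 = 1 / 36 := by
      intro x _ hx
      rw [hx, mul_zero, sub_zero, f0, nB]
      norm_num
    have e6 : ∀ x y, f x = 0 → f y = 0 → ‖f x - σ x y * f y‖ ^ 2 = 0 := by
      intro x y hx hy
      rw [hx, hy]
      simp
    let E : Option (Fin 7) → Option (Fin 7) → ℝ := fun x y =>
      if (suspension G7).Adj x y then ‖f x - σ x y * f y‖ ^ 2 else 0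
    have Esymm : ∀ x y, E x y = E y x := by
      intro x y
      simp only [E]
      by_cases h : (suspension G7).Adj x y
      · rw [if_pos h, if_pos h.symm, key x y h]
      · rw [if_neg h, if_neg (fun h' => h h'.symm)]
    have En : E none none = 0 := if_neg (fun h => h)
    have En6 : E none (some 6) = 25 / 36 := by simp only [E]; rw [if_pos (hn 6), e1]
    have En0 : E none (some 0) ≤ 4 / 36 := by simp only [E]; rw [if_pos (hn 0)]; exact e3
    have Eni : ∀ i : Fin 7, i ≠ 6 → i ≠ 0 → E none (some i) = 1 / 36 := by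
      intro i h6 h0
      simp only [E]
      rw [if_pos (hn i), e4 _ (hn i) (fi i h6 h0)]
    have E00 : ∀ i : Fin 7, E (some i) (some i) = 0 := fun i => if_neg (fun h => h.ne rfl)
    have E06 : E (some 0) (some 6) = 25 / 36 := by simp only [E]; rw [if_pos h0, e2]
    have E0i : ∀ i : Fin 7, i ≠ 6 → i ≠ 0 → E (some 0) (some i) = 1 / 36 := by
      intro i h6 h0
      have ha : (suspension G7).Adj (some 0) (some i) := by
        change G7.Adj 0 i
        revert i
        decide
      simp only [E]
      rw [if_pos ha, e5 _ ha (fi i h6 h0)]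
    have E6i : ∀ i : Fin 7, i ≠ 6 → i ≠ 0 → E (some 6) (some i) = 0 := by
      intro i h6 h0
      have ha : ¬ (suspension G7).Adj (some 6) (some i) := by
        change ¬ G7.Adj 6 i
        revert i
        decide
      simp only [E]
      rw [if_neg ha]
    have Eij : ∀ i j : Fin 7, i ≠ 6 → i ≠ 0 → j ≠ 6 → j ≠ 0 → E (some i) (some j) = 0 := by
      intro i j h1 h2 h3 h4
      simp only [E]
      rw [e6 (some i) (some j) (fi i h1 h2) (fi j h3 h4)]
      simp
    rw [Q_eq, hsum]
    change (∑ x, ∑ y, E x y) / 2 ≤ _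
    have hrow_n : ∑ y, E none y = E none (some 0) + 25 / 36 + 5 / 36 := by
      rw [Fintype.sum_option, En, zero_add]
      simp only [Fin.sum_univ_succ, Fin.sum_univ_zero]
      have a1 := Eni 1 (by decide) (by decide)
      have a2 := Eni 2 (by decide) (by decide)
      have a3 := Eni 3 (by decide) (by decide)
      have a4 := Eni 4 (by decide) (by decide)
      have a5 := Eni 5 (by decide) (by decide)
      simp only [Fin.succ_zero_eq_one, Fin.succ_one_eq_two, add_zero]
      change E none (some 0) + (E none (some 1) + (E none (some 2) + (E none (some 3) +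
        (E none (some 4) + (E none (some 5) + E none (some 6)))))) = _
      rw [a1, a2, a3, a4, a5, En6]
      ring
    have hrow : ∀ i : Fin 7, ∑ y, E (some i) y = E (some i) none + (E (some i) (some 0) +
        (E (some i) (some 1) + (E (some i) (some 2) + (E (some i) (some 3) +
        (E (some i) (some 4) + (E (some i) (some 5) + E (some i) (some 6))))))) := by
      intro i
      rw [Fintype.sum_option]
      simp only [Fin.sum_univ_succ, Fin.sum_univ_zero]
      simp only [Fin.succ_zero_eq_one, Fin.succ_one_eq_two, add_zero]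
      rfl
    have hrow_i : ∀ i : Fin 7, i ≠ 6 → i ≠ 0 → ∑ y, E (some i) y = 2 / 36 := by
      intro i h1 h2
      rw [hrow i, Esymm (some i) none, Eni i h1 h2, Esymm (some i) (some 0), E0i i h1 h2,
        Eij i 1 h1 h2 (by decide) (by decide), Eij i 2 h1 h2 (by decide) (by decide),
        Eij i 3 h1 h2 (by decide) (by decide), Eij i 4 h1 h2 (by decide) (by decide),
        Eij i 5 h1 h2 (by decide) (by decide), Esymm (some i) (some 6), E6i i h1 h2]
      ring
    have hrow_0 : ∑ y, E (some 0) y = E none (some 0) + 25 / 36 + 5 / 36 := by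
      rw [hrow 0, Esymm (some 0) none, E00, E0i 1 (by decide) (by decide),
        E0i 2 (by decide) (by decide), E0i 3 (by decide) (by decide),
        E0i 4 (by decide) (by decide), E0i 5 (by decide) (by decide), E06]
      ring
    have hrow_6 : ∑ y, E (some 6) y = 50 / 36 := by
      rw [hrow 6, Esymm (some 6) none, En6, Esymm (some 6) (some 0), E06,
        E6i 1 (by decide) (by decide), E6i 2 (by decide) (by decide),
        E6i 3 (by decide) (by decide), E6i 4 (by decide) (by decide),
        E6i 5 (by decide) (by decide), E00]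
      ring
    rw [Fintype.sum_option, hrow_n]
    simp only [Fin.sum_univ_succ, Fin.sum_univ_zero]
    simp only [Fin.succ_zero_eq_one, Fin.succ_one_eq_two, add_zero]
    change (E none (some 0) + 25 / 36 + 5 / 36 + (∑ y, E (some 0) y + (∑ y, E (some 1) y +
      (∑ y, E (some 2) y + (∑ y, E (some 3) y + (∑ y, E (some 4) y + (∑ y, E (some 5) y +
        ∑ y, E (some 6) y))))))) / 2 ≤ _
    rw [hrow_0, hrow_i 1 (by decide) (by decide), hrow_i 2 (by decide) (by decide),
      hrow_i 3 (by decide) (by decide), hrow_i 4 (by decide) (by decide),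
      hrow_i 5 (by decide) (by decide), hrow_6]
    linarith

/-- There is a connected graph `G` (with more than one vertex, so without isolated vertices) such
that `ν(G̃) < ν(G) + 1` for its suspension `G̃`. -/
theorem result : ∃ G : SimpleGraph (Fin 7), G.Connected ∧ (∀ v, ∃ w, G.Adj v w) ∧
    nu (suspension G) < nu G + 1 := by
  refine ⟨G7, ?_, by decide, ?_⟩
  · have hr : ∀ x, G7.Reachable 0 x := by
      intro x
      by_cases h : (0 : Fin 7) = x
      · rw [h]
      · refine SimpleGraph.Adj.reachable ?_
        revert x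
        decide
    exact ⟨fun x y => (hr x).symm.trans (hr y)⟩
  · have h1 := nu_G7
    have h2 := nu_susp
    linarith

end Pool.Agent.Results.MP_efe8c5_co.PendantVertex
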